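import Pool.Agent.H756.SB.Stm

/-! SB-ADJ: few signed placements have labels at neighbouring or mirror-neighbouring positions. -/

set_option autoImplicit false

namespace Pool.Agent.U354.SB

open Pool.Agent.H756.SB
open MeasureTheory Set Filter Topology

namespace ADJ

open Classical in
theorem cnt (n N : ℕ) (S : Fin n × Bool → Fin n × Bool → Prop) (E : ℕ → ℕ → Prop)
    (hE : ∀ x y y', E x y → E x y' → y = y') (p : Fin n × Fin n) :
    ((cfs N S).filter fun g => p.1 ≠ p.2 ∧ E (g p.1) (g p.2)).card ≤ (2 * N) ^ (n - 1) := by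
  by_cases hp : p.1 = p.2
  · rw [Finset.card_eq_zero.2]
    · exact Nat.zero_le _
    · apply Finset.filter_eq_empty_iff.2
      intro g _ h
      exact h.1 hp
  · have h1 : ((cfs N S).filter fun g => p.1 ≠ p.2 ∧ E (g p.1) (g p.2)).card ≤
        (Fintype.piFinset
          (Function.update (fun _ : Fin n => Finset.range (2 * N)) p.2 {0})).card := by
      apply Finset.card_le_card_of_injOn (fun g => Function.update g p.2 0)
      · intro g hg
        have hg1 := (Finset.mem_filter.1 hg).1
        unfold cfs at hg1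
        rw [Finset.mem_filter] at hg1
        have hg2 := Fintype.mem_piFinset.1 hg1.1
        rw [Finset.mem_coe, Fintype.mem_piFinset]
        intro a
        by_cases ha : a = p.2
        · subst ha; simp
        · show Function.update g p.2 0 a ∈ _
          rw [Function.update_of_ne ha, Function.update_of_ne ha]
          exact hg2 a
      · intro g hg h hh hgh
        have hg1 := (Finset.mem_filter.1 hg).2.2
        have hh1 := (Finset.mem_filter.1 hh).2.2
        have hgh' : Function.update g p.2 0 = Function.update h p.2 0 := hgh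
        funext a
        by_cases ha : a = p.2
        · subst ha
          have h2 := congrFun hgh' p.1
          rw [Function.update_of_ne hp, Function.update_of_ne hp] at h2
          rw [← h2] at hh1
          exact hE _ _ _ hg1 hh1
        · have h2 := congrFun hgh' a
          rwa [Function.update_of_ne ha, Function.update_of_ne ha] at h2
    refine le_trans h1 (le_of_eq ?_)
    rw [Fintype.card_piFinset, ← Finset.mul_prod_erase Finset.univ _ (Finset.mem_univ p.2)]
    rw [Function.update_self, Finset.card_singleton, one_mul]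
    rw [Finset.prod_congr rfl (g := fun _ => 2 * N)]
    · rw [Finset.prod_const, Finset.card_erase_of_mem (Finset.mem_univ _), Finset.card_univ,
        Fintype.card_fin]
    · intro a ha
      rw [Function.update_of_ne (Finset.ne_of_mem_erase ha), Finset.card_range]

open Classical in
theorem tot1 (n N : ℕ) (S : Fin n × Bool → Fin n × Bool → Prop) (E : ℕ → ℕ → Prop)
    (hE : ∀ x y y', E x y → E x y' → y = y') :
    ∑ g ∈ cfs N S, (Finset.univ.filter fun p : Fin n × Fin n =>
      p.1 ≠ p.2 ∧ E (g p.1) (g p.2)).card ≤ n ^ 2 * (2 * N) ^ (n - 1) := by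
  calc ∑ g ∈ cfs N S, (Finset.univ.filter fun p : Fin n × Fin n =>
      p.1 ≠ p.2 ∧ E (g p.1) (g p.2)).card
      = ∑ g ∈ cfs N S, ∑ p : Fin n × Fin n,
          (if p.1 ≠ p.2 ∧ E (g p.1) (g p.2) then 1 else 0) := by
        apply Finset.sum_congr rfl
        intro g _
        rw [Finset.card_filter]
    _ = ∑ p : Fin n × Fin n, ∑ g ∈ cfs N S,
          (if p.1 ≠ p.2 ∧ E (g p.1) (g p.2) then 1 else 0) :=
        Finset.sum_comm
    _ = ∑ p : Fin n × Fin n,
          ((cfs N S).filter fun g => p.1 ≠ p.2 ∧ E (g p.1) (g p.2)).card := by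
        apply Finset.sum_congr rfl
        intro p _
        rw [Finset.card_filter]
    _ ≤ ∑ _p : Fin n × Fin n, (2 * N) ^ (n - 1) :=
        Finset.sum_le_sum fun p _ => cnt n N S E hE p
    _ = n ^ 2 * (2 * N) ^ (n - 1) := by
        rw [Finset.sum_const, Finset.card_univ, Fintype.card_prod, Fintype.card_fin, smul_eq_mul,
          sq]

open Classical in
theorem tot (n N : ℕ) (S : Fin n × Bool → Fin n × Bool → Prop) :
    ∑ g ∈ cfs N S, adjs N g ≤ 3 * (n ^ 2 * (2 * N) ^ (n - 1)) := by
  have h1 := tot1 n N S (fun x y => y = x + 1) (by intro x y y' h h'; omega)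
  have h2 := tot1 n N S (fun x y => x + y + 2 = 2 * N) (by intro x y y' h h'; omega)
  have h3 := tot1 n N S (fun x y => x + y = 2 * N) (by intro x y y' h h'; omega)
  have h4 : ∀ g ∈ cfs N S, adjs N g ≤
      (Finset.univ.filter fun p : Fin n × Fin n => p.1 ≠ p.2 ∧ g p.2 = g p.1 + 1).card +
      (Finset.univ.filter fun p : Fin n × Fin n => p.1 ≠ p.2 ∧ g p.1 + g p.2 + 2 = 2 * N).card +
      (Finset.univ.filter fun p : Fin n × Fin n => p.1 ≠ p.2 ∧ g p.1 + g p.2 = 2 * N).card := by
    intro g _
    unfold adjs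
    refine le_trans ?_ (le_trans (Finset.card_union_le _ _)
      (Nat.add_le_add_right (Finset.card_union_le _ _) _))
    apply Finset.card_le_card
    intro p hp
    rw [Finset.mem_filter] at hp
    rw [Finset.mem_union, Finset.mem_union, Finset.mem_filter, Finset.mem_filter,
      Finset.mem_filter]
    obtain ⟨h0, h5, h6 | h6 | h6⟩ := hp
    · exact Or.inl (Or.inl ⟨h0, h5, h6⟩)
    · exact Or.inl (Or.inr ⟨h0, h5, h6⟩)
    · exact Or.inr ⟨h0, h5, h6⟩
  refine le_trans (Finset.sum_le_sum h4) ?_
  rw [Finset.sum_add_distrib, Finset.sum_add_distrib]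
  have h5 := Nat.add_le_add (Nat.add_le_add h1 h2) h3
  refine le_trans (le_of_eq ?_) (le_trans h5 (le_of_eq (by ring)))
  congr!

end ADJ

theorem t_ADJ : S_ADJ := by
  intro n S
  refine squeeze_zero' (Eventually.of_forall fun N => ?_) ?_
    ((tendsto_const_div_atTop_nhds_zero_nat (3 * (n : ℝ) ^ 2)))
  · exact div_nonneg (Finset.sum_nonneg fun g _ => Nat.cast_nonneg _) (by positivity)
  · filter_upwards [eventually_gt_atTop 0] with N hN
    have hN' : (0 : ℝ) < N := Nat.cast_pos.2 hN
    have h1 : (∑ g ∈ cfs N S, (adjs N g : ℝ)) ≤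
        3 * ((n : ℝ) ^ 2 * ((2 * N : ℕ) : ℝ) ^ (n - 1)) := by
      exact_mod_cast ADJ.tot n N S
    refine le_trans (div_le_div_of_nonneg_right h1 (by positivity)) ?_
    rcases Nat.eq_zero_or_pos n with h0 | h0
    · subst h0; simp
    · obtain ⟨k, rfl⟩ : ∃ k, n = k + 1 := ⟨n - 1, by omega⟩
      rw [Nat.add_sub_cancel, pow_succ (((2 * N : ℕ) : ℝ)) k]
      have h2 : (0 : ℝ) < ((2 * N : ℕ) : ℝ) := by positivity
      have h3 : 3 * (((k + 1 : ℕ) : ℝ) ^ 2 * ((2 * N : ℕ) : ℝ) ^ k) /
          (((2 * N : ℕ) : ℝ) ^ k * ((2 * N : ℕ) : ℝ)) =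
          3 * ((k + 1 : ℕ) : ℝ) ^ 2 / ((2 * N : ℕ) : ℝ) := by
        field_simp
      rw [h3]
      apply div_le_div_of_nonneg_left (by positivity) hN'
      push_cast
      linarith

end Pool.Agent.U354.SB
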