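import Pool.Agent.H756.SB.Stm

/-! SB-UPC: the energy of a signed placement, by the kinds of exchanges. -/

set_option autoImplicit false

namespace Pool.Agent.U354.SB

open Pool.Agent.H756.SB
open MeasureTheory Set Filter Topology

namespace UPC

lemma sum_ite_le {s : Finset ℕ} {φ : ℕ → Prop} [DecidablePred φ] {x : ℝ} (hx : 0 ≤ x)
    (h : ∀ i ∈ s, ∀ j ∈ s, φ i → φ j → i = j) : ∑ k ∈ s, (if φ k then x else 0) ≤ x := by
  rw [← Finset.sum_filter, Finset.sum_const, nsmul_eq_mul]
  have h1 : (s.filter φ).card ≤ 1 := by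
    rw [Finset.card_le_one]
    intro i hi j hj
    rw [Finset.mem_filter] at hi hj
    exact h i hi.1 j hj.1 hi.2 hj.2
  have h2 : ((s.filter φ).card : ℝ) ≤ 1 := by exact_mod_cast h1
  calc ((s.filter φ).card : ℝ) * x ≤ 1 * x := mul_le_mul_of_nonneg_right h2 hx
    _ = x := one_mul x

lemma rf_up1 {N k x : ℕ} (h : x = k) : rf N k (k + 1) x = x + 1 := by
  unfold rf
  rw [if_pos h, h]

lemma rf_up2 {N k x : ℕ} (hk : k < N) (h : x = 2 * N - 2 - k) : rf N k (k + 1) x = x + 1 := by
  unfold rf
  split_ifs <;> omega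

lemma rf_down1 {N k x : ℕ} (h : x = k + 1) : rf N k (k + 1) x = x - 1 := by
  unfold rf
  split_ifs <;> omega

lemma rf_down2 {N k x : ℕ} (hk : k < N) (h : x = 2 * N - 1 - k) : rf N k (k + 1) x = x - 1 := by
  unfold rf
  split_ifs <;> omega

lemma rf_id {N k x : ℕ} (h1 : x ≠ k) (h2 : x ≠ k + 1) (h3 : x ≠ 2 * N - 1 - k)
    (h4 : x ≠ 2 * N - 2 - k) : rf N k (k + 1) x = x := by
  unfold rf
  rw [if_neg h1, if_neg h2, if_neg h3, if_neg (by omega)]

lemma mvs_single {n N k : ℕ} {g : Fin n → ℕ} {a : Fin n}
    (h : ∀ b, b ≠ a → g b ≠ k ∧ g b ≠ k + 1 ∧ g b ≠ 2 * N - 1 - k ∧ g b ≠ 2 * N - 2 - k) :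
    mvs N k (k + 1) g = Function.update g a (rf N k (k + 1) (g a)) := by
  funext x
  unfold mvs
  by_cases hx : x = a
  · subst hx
    rw [Function.update_self]
  · obtain ⟨h1, h2, h3, h4⟩ := h x hx
    rw [Function.update_of_ne hx, rf_id h1 h2 h3 h4]

end UPC

open UPC

theorem t_UPC : S_UPC := by
  classical
  intro n N S c F C hc hcs g hg hC
  have hg' := hg
  unfold cfs at hg'
  rw [Finset.mem_filter, Fintype.mem_piFinset] at hg'
  have hgN : ∀ a, g a < 2 * N := fun a => Finset.mem_range.1 (hg'.1 a)
  have hinj : ∀ a b, a ≠ b → g a ≠ g b ∧ g a + g b + 1 ≠ 2 * N := hg'.2.1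
  set A : Fin n → ℝ := fun a => if g a + 1 < 2 * N then
    c (g a) * (F (Function.update g a (g a + 1)) - F g) ^ 2 else 0 with hAdef
  set B : Fin n → ℝ := fun a => if 0 < g a then
    c (g a - 1) * (F (Function.update g a (g a - 1)) - F g) ^ 2 else 0 with hBdef
  set P : Finset (Fin n × Fin n) := Finset.univ.filter fun p : Fin n × Fin n => p.1 ≠ p.2 ∧
    (g p.2 = g p.1 + 1 ∨ g p.1 + g p.2 + 2 = 2 * N ∨ g p.1 + g p.2 = 2 * N) with hPdef
  set κ : Fin n × Fin n → ℕ := fun p =>
    min (min (g p.1) (g p.2)) (min (2 * N - 1 - g p.1) (2 * N - 1 - g p.2)) with hκ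
  have hA : ∀ a, 0 ≤ A a := by
    intro a
    simp only [hAdef]
    split_ifs with h
    · exact mul_nonneg (hc _ h) (sq_nonneg _)
    · exact le_rfl
  have hB : ∀ a, 0 ≤ B a := by
    intro a
    simp only [hBdef]
    split_ifs with h
    · refine mul_nonneg (hc _ ?_) (sq_nonneg _)
      have := hgN a
      omega
    · exact le_rfl
  have hC0 : ∀ k, k < N → 0 ≤ C := by
    intro k hk
    exact (mul_nonneg (hc k (by omega)) (sq_nonneg _)).trans (hC k hk)
  have key : ∀ k ∈ Finset.range N,
      (if mvs N k (k + 1) g ∈ cfs N S then c k * (F (mvs N k (k + 1) g) - F g) ^ 2 else 0) ≤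
      (∑ a, if g a = k ∨ g a = 2 * N - 2 - k then A a else 0) +
      (∑ a, if g a = k + 1 ∨ g a = 2 * N - 1 - k then B a else 0) +
      ∑ p ∈ P, if κ p = k then C else 0 := by
    intro k hk
    have hk' : k < N := Finset.mem_range.1 hk
    have hk2 : k + 1 < 2 * N := by omega
    have hC0' := hC0 k hk'
    have n1 : 0 ≤ ∑ a, if g a = k ∨ g a = 2 * N - 2 - k then A a else 0 :=
      Finset.sum_nonneg fun a _ => by split_ifs; exacts [hA a, le_rfl]
    have n2 : 0 ≤ ∑ a, if g a = k + 1 ∨ g a = 2 * N - 1 - k then B a else 0 :=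
      Finset.sum_nonneg fun a _ => by split_ifs; exacts [hB a, le_rfl]
    have n3 : 0 ≤ ∑ p ∈ P, if κ p = k then C else 0 :=
      Finset.sum_nonneg fun p _ => by split_ifs; exacts [hC0', le_rfl]
    have hq : (if mvs N k (k + 1) g ∈ cfs N S then
        c k * (F (mvs N k (k + 1) g) - F g) ^ 2 else 0) ≤
        c k * (F (mvs N k (k + 1) g) - F g) ^ 2 := by
      split_ifs
      · exact le_rfl
      · exact mul_nonneg (hc _ hk2) (sq_nonneg _)
    refine hq.trans ?_
    have up : ∀ a, mvs N k (k + 1) g = Function.update g a (g a + 1) →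
        (g a = k ∨ g a = 2 * N - 2 - k) →
        c k * (F (mvs N k (k + 1) g) - F g) ^ 2 ≤
          ∑ a, if g a = k ∨ g a = 2 * N - 2 - k then A a else 0 := by
      intro a hm ha
      have h3 : (if g a = k ∨ g a = 2 * N - 2 - k then A a else 0) ≤
          ∑ a, if g a = k ∨ g a = 2 * N - 2 - k then A a else 0 :=
        Finset.single_le_sum
          (f := fun a => if g a = k ∨ g a = 2 * N - 2 - k then A a else 0)
          (fun x _ => by beta_reduce; split_ifs; exacts [hA x, le_rfl]) (Finset.mem_univ a)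
      rw [if_pos ha] at h3
      refine le_trans (le_of_eq ?_) h3
      simp only [hAdef]
      rw [if_pos (by omega), hm]
      rcases ha with ha | ha
      · rw [ha]
      · rw [ha, hcs k hk2]
    have down : ∀ a, mvs N k (k + 1) g = Function.update g a (g a - 1) →
        (g a = k + 1 ∨ g a = 2 * N - 1 - k) →
        c k * (F (mvs N k (k + 1) g) - F g) ^ 2 ≤
          ∑ a, if g a = k + 1 ∨ g a = 2 * N - 1 - k then B a else 0 := by
      intro a hm ha
      have h3 : (if g a = k + 1 ∨ g a = 2 * N - 1 - k then B a else 0) ≤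
          ∑ a, if g a = k + 1 ∨ g a = 2 * N - 1 - k then B a else 0 :=
        Finset.single_le_sum
          (f := fun a => if g a = k + 1 ∨ g a = 2 * N - 1 - k then B a else 0)
          (fun x _ => by beta_reduce; split_ifs; exacts [hB x, le_rfl]) (Finset.mem_univ a)
      rw [if_pos ha] at h3
      refine le_trans (le_of_eq ?_) h3
      simp only [hBdef]
      rw [if_pos (by omega), hm]
      have h4 : c (g a - 1) = c k := by
        rcases ha with ha | ha
        · rw [ha, Nat.add_sub_cancel]
        · rw [ha, show 2 * N - 1 - k - 1 = 2 * N - 2 - k by omega, hcs k hk2]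
      rw [h4]
    by_cases h1 : ∃ a b, a ≠ b ∧ (g a = k ∨ g a = 2 * N - 1 - k) ∧
        (g b = k + 1 ∨ g b = 2 * N - 2 - k)
    · obtain ⟨a, b, hab, ha, hb⟩ := h1
      have hne := hinj a b hab
      have h2 : ∃ p ∈ P, κ p = k := by
        by_cases h5 : g a = g b + 1
        · refine ⟨(b, a), ?_, ?_⟩
          · rw [hPdef, Finset.mem_filter]
            exact ⟨Finset.mem_univ _, hab.symm, Or.inl h5⟩
          · simp only [hκ]
            omega
        · refine ⟨(a, b), ?_, ?_⟩
          · rw [hPdef, Finset.mem_filter]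
            refine ⟨Finset.mem_univ _, hab, ?_⟩
            show g b = g a + 1 ∨ g a + g b + 2 = 2 * N ∨ g a + g b = 2 * N
            omega
          · simp only [hκ]
            omega
      obtain ⟨p, hp, hpk⟩ := h2
      have h3 : (if κ p = k then C else 0) ≤ ∑ p ∈ P, if κ p = k then C else 0 :=
        Finset.single_le_sum (f := fun p => if κ p = k then C else 0)
          (fun x _ => by beta_reduce; split_ifs; exacts [hC0', le_rfl]) hp
      rw [if_pos hpk] at h3
      have h4 := hC k hk'
      linarith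
    · by_cases h2 : ∃ a, g a = k ∨ g a = 2 * N - 1 - k
      · obtain ⟨a, ha⟩ := h2
        have hm := mvs_single (N := N) (k := k) (g := g) (a := a) (by
          intro b hb
          have h3 := hinj a b (Ne.symm hb)
          have h4 : ¬ (g b = k + 1 ∨ g b = 2 * N - 2 - k) :=
            fun h => h1 ⟨a, b, Ne.symm hb, ha, h⟩
          omega)
        rcases ha with ha | ha
        · rw [rf_up1 ha] at hm
          have := up a hm (Or.inl ha)
          linarith
        · rw [rf_down2 hk' ha] at hm
          have := down a hm (Or.inr ha)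
          linarith
      · by_cases h3 : ∃ b, g b = k + 1 ∨ g b = 2 * N - 2 - k
        · obtain ⟨b, hb⟩ := h3
          have hm := mvs_single (N := N) (k := k) (g := g) (a := b) (by
            intro a ha
            have h4 := hinj a b ha
            have h5 : ¬ (g a = k ∨ g a = 2 * N - 1 - k) := fun h => h2 ⟨a, h⟩
            omega)
          rcases hb with hb | hb
          · rw [rf_down1 hb] at hm
            have := down b hm (Or.inl hb)
            linarith
          · rw [rf_up2 hk' hb] at hm
            have := up b hm (Or.inr hb)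
            linarith
        · have hm : mvs N k (k + 1) g = g := by
            funext x
            unfold mvs
            have h4 : ¬ (g x = k ∨ g x = 2 * N - 1 - k) := fun h => h2 ⟨x, h⟩
            have h5 : ¬ (g x = k + 1 ∨ g x = 2 * N - 2 - k) := fun h => h3 ⟨x, h⟩
            push Not at h4 h5
            exact rf_id h4.1 h5.1 h4.2 h5.2
          rw [hm, sub_self]
          have : c k * (0 : ℝ) ^ 2 = 0 := by ring
          rw [this]
          linarith
  have h1 := Finset.sum_le_sum key
  have e1 : ∑ k ∈ Finset.range N, ∑ a, (if g a = k ∨ g a = 2 * N - 2 - k then A a else 0) ≤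
      ∑ a, A a := by
    rw [Finset.sum_comm]
    refine Finset.sum_le_sum fun a _ => sum_ite_le (hA a) fun i hi j hj h h' => ?_
    rw [Finset.mem_range] at hi hj
    omega
  have e2 : ∑ k ∈ Finset.range N, ∑ a, (if g a = k + 1 ∨ g a = 2 * N - 1 - k then B a else 0) ≤
      ∑ a, B a := by
    rw [Finset.sum_comm]
    refine Finset.sum_le_sum fun a _ => sum_ite_le (hB a) fun i hi j hj h h' => ?_
    rw [Finset.mem_range] at hi hj
    omega
  have e3 : ∑ k ∈ Finset.range N, ∑ p ∈ P, (if κ p = k then C else 0) ≤ C * (adjs N g : ℝ) := by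
    rcases Nat.eq_zero_or_pos N with h0 | h0
    · subst h0
      have hP : adjs 0 g = 0 := by
        unfold adjs
        rw [Finset.card_eq_zero, Finset.filter_eq_empty_iff]
        intro p _
        have := hgN p.1
        omega
      rw [hP]
      simp
    · rw [Finset.sum_comm]
      refine le_trans (Finset.sum_le_sum fun p _ => sum_ite_le (hC0 0 h0)
        fun i _ j _ h h' => h.symm.trans h') ?_
      rw [Finset.sum_const, nsmul_eq_mul, mul_comm]
      apply le_of_eq
      congr 2
  rw [Finset.sum_add_distrib, Finset.sum_add_distrib] at h1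
  unfold QQs
  refine le_trans (le_of_eq ?_) (h1.trans (add_le_add (add_le_add e1 e2) e3))
  congr!

end Pool.Agent.U354.SB
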